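import Pool.Agent.Work.MP_8f87b2_mid.OrdS
import Pool.Agent.Work.MP_8f87b2_h13.TyRq
import Pool.Agent.Work.MP_8f87b2_h62.W3c
import Pool.Agent.Work.MP_8f87b2_h63.J4
import Pool.Agent.Work.MP_8f87b2_h61.JsW

/-!
# The windows in the order

`WinOK b F g`: the facts about a window which the order needs (`b = true`: bare, `c = 3`).
-/

set_option autoImplicit false

namespace Pool.OddHC

open Finset Equiv BinaryTree Pool.Agent.Work.MP_8f87b2_co HM

variable {k : ℕ} {F F' : Set (Cyc k)} {g g' : DG k} {q : ℕ} {R B S : BinaryTree Unit}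

/-- the order data of a window -/
def WinOK (b : Bool) (F : Set (Cyc k)) (g : DG k) : Prop :=
  F.Nonempty ∧ ∃ C, (∀ c ∈ F, contc c = C) ∧ ∀ w ∈ g.B, cyc w ∈ F ∨
    (H1.Lower (contc (cyc w)) C ∧ ((contc (cyc w)).sup = C.sup →
      H1.n3 (contc (cyc w)) < H1.n3 C ∨ (b = false ∧ H1.n3 (contc (cyc w)) = H1.n3 C)))

theorem WinOK.mc {b0 : Bool} (h : WinOK (k := k) b0 F g) : ∀ c ∈ F, contc c = mc F := by
  obtain ⟨h1, C, h2, _⟩ := h
  intro c hc
  rw [mc_eq h1 h2, h2 c hc]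

theorem WinOK.win {b0 : Bool} (h : WinOK (k := k) b0 F g) : ∀ w ∈ g.B, cyc w ∈ F ∨
    (H1.Lower (contc (cyc w)) (Pool.OddHC.mc F) ∧ (htc (cyc w) = (Pool.OddHC.mc F).sup →
      H1.n3 (contc (cyc w)) < H1.n3 (Pool.OddHC.mc F) ∨
        (b0 = false ∧ H1.n3 (contc (cyc w)) = H1.n3 (Pool.OddHC.mc F)))) := by
  obtain ⟨h1, C, h2, h3⟩ := h
  rw [mc_eq h1 h2]
  exact h3

/-- a lower content has at least the height -/
theorem Lower.sup_le {D C : Multiset ℕ} (h : H1.Lower D C) : C.sup ≤ D.sup := by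
  rcases h with h | ⟨h, _⟩ <;> omega

/-- the core: words with the contents of a window -/
theorem winOK_of {b0 : Bool} (hd : H1.Dat q R B S) (hb : b0 = true → q = 0)
    {z : Cyc k} (hz : contc z = OddHC.cont R + {q + 3})
    (hw : ∀ w ∈ g.B, cyc w = z ∨ ∃ i < 20, i ≠ 0 ∧ i ≠ 10 ∧
      contc (cyc w) = OddHC.cont (H1.W R (H1.ch (q + 1)) B S i)) : WinOK b0 ({z} : Set (Cyc k)) g := by
  refine ⟨⟨z, rfl⟩, OddHC.cont R + {q + 3}, by rintro c rfl; exact hz, ?_⟩
  intro w hwB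
  rcases hw w hwB with h | ⟨i, hi, h0, h10, h⟩
  · exact Or.inl h
  · right
    rw [h]
    refine ⟨H1.rank_W hd i hi h0 h10, fun hs => ?_⟩
    have h1 : (OddHC.cont R + {q + 3}).sup = OddHC.ht R := by
      rw [sup_add', Multiset.sup_singleton, ht_eq R]
      have := hd.big
      rw [ht_eq] at this
      omega
    rw [h1, ← ht_eq] at hs
    have h2 := H1.n3_W hd i hi h0 h10 hs
    rcases h2.1.lt_or_eq with h3 | h3
    · exact Or.inl h3
    · right
      refine ⟨?_, h3⟩
      cases b0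
      · rfl
      · have := h2.2 (hb rfl)
        omega

theorem TyA.winOK (h : TyA F g) : WinOK false F g := by
  obtain ⟨q, B1, H, s, B, w0, h1, rfl, rfl⟩ := h
  refine winOK_of h1.dat (by simp) ?_ ?_
  · change OddHC.cont (H1.gX q B1 H s B w0 0).1 = _
    rw [h1.word w0 (by norm_num)]
    exact H1.cont_W0
  · intro w hw
    obtain ⟨i, hi, rfl⟩ := mem_gad20.1 hw
    by_cases h0 : i = 0
    · left; rw [h0]
    · by_cases h10 : i = 10
      · left
        rw [h10]
        have := h1.link w0 (i := 0) (j := 10) (by simp)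
        rw [← this]
        exact cyc_eq.2 ⟨-2, by simp [zpow_neg, pow_succ]⟩
      · right
        refine ⟨i, hi, h0, h10, ?_⟩
        change OddHC.cont (H1.gX q B1 H s B w0 i).1 = _
        rw [h1.word w0 hi]

theorem TyA0.winOK (h : TyA0 F g) : WinOK false F g := by
  obtain ⟨q, R, B, S, w0, h1, hne, rfl, rfl⟩ := h
  refine winOK_of h1.dat (by simp) (h1.cont0 w0) ?_
  intro w hw
  obtain ⟨i, hi, rfl⟩ := mem_gad20M.1 hw
  by_cases h0 : i = 0
  · left; rw [h0]
  · by_cases h10 : i = 10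
    · left
      rw [h10]
      exact cyc_eq.2 (h1.same10 w0).symm
    · right
      refine ⟨i, hi, h0, h10, ?_⟩
      change OddHC.cont (Tsq.mir (H1.wX R B S q w0 i).1) = _
      rw [cont_mir, H1.wX_eq h1.dat h1.size w0 hi]

theorem TyRq.winOK (h : TyRq q F g) : WinOK (decide (q = 0)) F g := by
  obtain ⟨R, B, S, w0, h1, hne, rfl, rfl⟩ := h
  refine winOK_of h1.dat (by simp) (H1.wX_cont0 h1.dat h1.size w0) ?_
  intro w hw
  obtain ⟨i, hi, rfl⟩ := mem_gad20.1 hw
  by_cases h0 : i = 0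
  · left; rw [h0]
  · by_cases h10 : i = 10
    · left
      rw [h10]
      exact cyc_eq.2 (h1.rsame10 w0).symm
    · right
      refine ⟨i, hi, h0, h10, ?_⟩
      change OddHC.cont (H1.wX R B S q w0 i).1 = _
      rw [H1.wX_eq h1.dat h1.size w0 hi]

theorem TyR3.winOK (h : TyR3 F g) : WinOK true F g := h.toRq.winOK

theorem TyT.winOK (h : TyT F g) : WinOK false F g := by
  obtain ⟨b, m, a, w0, h1, rfl, rfl⟩ := h
  refine winOK_of (H1.dat3 b m a) (by simp) (h1.cont0 w0) ?_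
  intro w hw
  obtain ⟨i, hi, rfl⟩ := mem_gad20.1 hw
  by_cases h0 : i = 0
  · left; rw [h0]
  · by_cases h10 : i = 10
    · left
      rw [h10]
      have := h1.link w0 (i := 0) (j := 10) (by simp)
      rw [← this]
      exact cyc_eq.2 ⟨-2, by simp [zpow_neg, pow_succ]⟩
    · right
      refine ⟨i, hi, h0, h10, ?_⟩
      change OddHC.cont (H1.tX b m a w0 i).1 = _
      rw [h1.word w0 hi]
      rfl

end Pool.OddHC
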